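import Pool.Agent.H15.Dit2

set_option autoImplicit false
open Set Cardinal Pool.Agent.H15.Inj

namespace Pool.Agent.Results.MP_61ad90_lc.Chang

/-- the Chang property from (a, b) to (c, d) -/
def CC (a b c d : Cardinal.{0}) : Prop :=
  ∀ (L : FirstOrder.Language.{0, 0}) [Countable L.Symbols] (M : Type) [L.Structure M]
    (r : L.Relations 1), #M = a →
    #{m : M | FirstOrder.Language.Structure.RelMap r ![m]} = b →
    ∃ N : L.ElementarySubstructure M, #N = c ∧
      #{m : M | m ∈ N ∧ FirstOrder.Language.Structure.RelMap r ![m]} = d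

theorem closed {a b c d : Cardinal.{0}} (h : CC a b c d) {W : Type} [Nonempty W] (hW : #W = a)
    (P : Set W) (hP : #P = b) (G : ℕ → W → W → W) :
    ∃ x : Set W, #x = c ∧ #(x ∩ P : Set W) = d ∧ ∀ n, ∀ s ∈ x, ∀ t ∈ x, G n s t ∈ x := by
  classical
  letI : LL.Structure W :=
    { funMap := fun {n} (f : ℕ) v =>
        if h : 2 ≤ n then G f (v ⟨0, by omega⟩) (v ⟨1, by omega⟩) else Classical.arbitrary W
      RelMap := fun {_} _ v => ∀ i, v i ∈ P }
  have hP' : {m : W | FirstOrder.Language.Structure.RelMap (L := LL) (n := 1) () ![m]} = P := by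
    ext m
    change (∀ i, (![m] : Fin 1 → W) i ∈ P) ↔ m ∈ P
    simp
  obtain ⟨N, h1, h2⟩ := h LL W (() : LL.Relations 1) hW (by rw [hP', hP])
  refine ⟨N, h1, ?_, fun n s hs t ht => ?_⟩
  · rw [← h2, ← hP']; rfl
  · exact N.toSubstructure.fun_mem (n := 2) (n : LL.Functions 2) ![s, t]
      (by intro i; fin_cases i <;> assumption)

theorem core {κ : Cardinal.{0}} (h0 : ℵ₀ ≤ κ) (hκ : κ ^ ℵ₀ = κ)
    (h : CC (Order.succ (Order.succ κ)) (Order.succ κ) (Order.succ κ) κ) :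
    ∀ (f : Set (Order.succ (Order.succ κ)).ord.ToType → (Order.succ κ).ord.ToType),
    ∃ H : Set _, #H = Order.succ κ ∧ ∃ c, ∀ A ⊆ H, #A = ℵ₀ → f A ≠ c := by
  classical
  have h1 : ℵ₀ ≤ Order.succ κ := h0.trans (Order.le_succ _)
  set W := (Order.succ (Order.succ κ)).ord.ToType
  set L := (Order.succ κ).ord.ToType
  intro f
  have hL : #L = Order.succ κ := by simp [L]
  have hW : #W = Order.succ (Order.succ κ) := by simp [W]
  have hLi : ∀ l : L, #(Iic l) ≤ κ := fun l => Order.lt_succ_iff.1 (iic_lt h1 l)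
  have hWi : ∀ l : W, #(Iic l) ≤ Order.succ κ := fun l =>
    Order.lt_succ_iff.1 (iic_lt (h1.trans (Order.le_succ _)) l)
  have hcL : Order.cof L = Order.succ κ := by
    rw [Ordinal.cof_toType]; exact (Cardinal.isRegular_succ h0).cof_ord
  have hne : Nonempty W := by
    rw [← Cardinal.mk_ne_zero_iff, hW]; exact (Order.bot_lt_succ _).ne'
  have he : ∀ a : W, ∃ e : W → L, InjOn e (Iic a) := by
    intro a
    obtain ⟨f⟩ : Nonempty (Iic a ↪ L) := by rw [← Cardinal.le_def, hL]; exact hWi a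
    refine ⟨fun x => if h : x ≤ a then f ⟨x, h⟩ else f ⟨a, self_mem_Iic⟩, ?_⟩
    intro x hx y hy hxy
    have hx' : x ≤ a := hx
    have hy' : y ≤ a := hy
    simp only [hx', hy', dif_pos] at hxy
    exact congrArg Subtype.val (f.injective hxy)
  choose e he using he
  have hpre : ∀ (β : W) (S : Set L), #{η | η ≤ β ∧ e β η ∈ S} ≤ #S := fun β S =>
    Cardinal.mk_le_of_injective (f := fun ζ : {η | η ≤ β ∧ e β η ∈ S} => (⟨e β ζ, ζ.2.2⟩ : S))
      fun a b h => Subtype.ext (he β a.2.1 b.2.1 (congrArg Subtype.val h))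
  choose g hg using fun t : L => greedy (L := L) (fun β : W => {η | η < β ∧ e β η ≤ t})
    (fun β η h => h.1) (fun β => by
      rw [hL, Order.lt_succ_iff]
      refine le_trans (Cardinal.mk_le_mk_of_subset fun η h => ?_) ((hpre β (Iic t)).trans (hLi t))
      exact ⟨h.1.le, h.2⟩)
  have hb : ∀ (β : W) (t : L), ∃ b : L, ∀ A : Set W, A ⊆ {η | η ≤ β ∧ e β η ∈ Iic t} →
      #A ≤ ℵ₀ → f A < b := by
    intro β t
    obtain ⟨b, hb⟩ := bdd (x := range fun A : {A : Set W // A ⊆ {η | η ≤ β ∧ e β η ∈ Iic t} ∧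
        #A ≤ ℵ₀} => f A) (by
      rw [hcL, Order.lt_succ_iff]
      refine Cardinal.mk_range_le.trans ((Cardinal.mk_bounded_subset_le _ _).trans ?_)
      exact (Cardinal.power_le_power_right (max_le ((hpre β _).trans (hLi t)) h0)).trans hκ.le)
    exact ⟨b, fun A h1 h2 => hb _ ⟨⟨A, h1, h2⟩, rfl⟩⟩
  choose b hb using hb
  obtain ⟨j⟩ : Nonempty (L ↪ W) := by rw [← Cardinal.le_def, hL, hW]; exact Order.le_succ _
  have hLne : Nonempty L := ⟨e (Classical.arbitrary W) (Classical.arbitrary W)⟩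
  let i : W → L := Function.invFun j
  have hi : ∀ t, i (j t) = t := Function.leftInverse_invFun j.injective
  let G : ℕ → W → W → W := fun n s t => match n with
    | 0 => j (e s t)
    | 1 => j (g (i t) s)
    | _ => j (b s (i t))
  obtain ⟨x, hx1, hx2, hx3⟩ := closed h hW (range j)
    (by rw [Cardinal.mk_range_eq _ j.injective, hL]) G
  let K : Set L := j ⁻¹' x
  have hK : #K ≤ κ := hx2 ▸ Cardinal.mk_le_of_injective
    (f := fun t : K => (⟨j t, t.2, ⟨t, rfl⟩⟩ : (x ∩ range j : Set W)))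
    fun a b h => Subtype.ext (j.injective (congrArg Subtype.val h))
  have hxk : ¬ #x ≤ κ := by rw [hx1]; exact (Order.lt_succ κ).not_ge
  have hK1 : ∀ s ⊆ K, #s ≤ ℵ₀ → ∃ k ∈ K, ∀ t ∈ s, t ≤ k := by
    intro s hs hsc
    by_contra hc
    push Not at hc
    refine hxk ((Cardinal.mk_le_of_injective (f := fun (β : x) (t : s) =>
      (⟨g t β, by simpa [K, G, hi] using hx3 1 _ β.2 _ (hs t.2)⟩ : K)) ?_).trans ?_)
    · have : ∀ β γ : x, β.1 < γ.1 → ∃ t ∈ s, g t β ≠ g t γ := fun β γ h => by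
        obtain ⟨t, ht, h2⟩ := hc (e γ β) (hx3 0 _ γ.2 _ β.2)
        exact ⟨t, ht, hg t γ β ⟨h, h2.le⟩⟩
      intro β γ h
      rcases lt_trichotomy β.1 γ.1 with h2 | h2 | h2
      · obtain ⟨t, ht, h3⟩ := this β γ h2
        exact absurd (congrArg Subtype.val (congrFun h ⟨t, ht⟩)) h3
      · exact Subtype.ext h2
      · obtain ⟨t, ht, h3⟩ := this γ β h2
        exact absurd (congrArg Subtype.val (congrFun h ⟨t, ht⟩)).symm h3
    · rw [← Cardinal.power_def]
      exact (Cardinal.power_le_power_right hK).trans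
        ((Cardinal.power_le_power_left (aleph0_pos.trans_le h0).ne' hsc).trans hκ.le)
  obtain ⟨c, hc⟩ := bdd (x := K) (by rw [hcL]; exact Order.lt_succ_iff.2 hK)
  refine ⟨x, hx1, c, fun A hA hAc => ?_⟩
  obtain ⟨β, hβ, hAβ⟩ : ∃ β ∈ x, ∀ a ∈ A, a ≤ β := by
    by_contra hh
    push Not at hh
    refine hxk (le_trans (Cardinal.mk_le_mk_of_subset (fun β hβ => ?_))
      (mk_bi h0 (hAc.le.trans h0) (fun a => {η | η ≤ a ∧ e a η ∈ K})
        fun a _ => (hpre a K).trans hK))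
    obtain ⟨a, h1, h2⟩ := hh β hβ
    exact mem_biUnion h1 ⟨h2.le, hx3 0 _ (hA h1) _ hβ⟩
  obtain ⟨k, hk, hk'⟩ := hK1 (e β '' A) (by rintro _ ⟨a, ha, rfl⟩; exact hx3 0 _ hβ _ (hA ha))
    (Cardinal.mk_image_le.trans hAc.le)
  have h2 := hb β k A (fun a ha => ⟨hAβ a ha, hk' _ ⟨a, ha, rfl⟩⟩) hAc.le
  have h3 : b β k ∈ K := by simpa [K, G, hi] using hx3 2 _ hβ _ hk
  exact (h2.trans (hc _ h3)).ne

theorem result (κ : Cardinal.{0}) (h0 : ℵ₀ ≤ κ) (hκ : κ ^ ℵ₀ = κ)
    (h : CC (Order.succ (Order.succ κ)) (Order.succ κ) (Order.succ κ) κ)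
    (α β : Type) (hα : Order.succ (Order.succ κ) ≤ #α) (hβ : #β = Order.succ κ) (f : Set α → β) :
    ∃ H : Set α, #H = Order.succ κ ∧ ∃ c : β, ∀ A ⊆ H, #A = ℵ₀ → f A ≠ c := by
  obtain ⟨j⟩ : Nonempty ((Order.succ (Order.succ κ)).ord.ToType ↪ α) := by
    rw [← Cardinal.le_def]; simpa using hα
  obtain ⟨q⟩ : Nonempty (β ≃ (Order.succ κ).ord.ToType) := by
    rw [← Cardinal.eq]; simpa using hβ
  obtain ⟨H, h1, c, h2⟩ := core h0 hκ h fun A => q (f (j '' A))
  refine ⟨j '' H, by rw [Cardinal.mk_image_eq j.injective, h1], q.symm c, fun A hA hc hf => ?_⟩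
  obtain ⟨B, hB, rfl⟩ := Set.subset_image_iff.1 hA
  rw [Cardinal.mk_image_eq j.injective] at hc
  exact h2 B hB hc (by simp [hf])

end Pool.Agent.Results.MP_61ad90_lc.Chang
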